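import Pool.Agent.V5helper56.DU.Stm

/-! Project DU, job NRM: norms of `p`-units are `p`-th powers modulo totally ramified primes. -/

set_option linter.style.haveILetI false

open NumberField Ideal Module IntermediateField Pool.Agent.Helper832_EG
open scoped Pointwise nonZeroDivisors

namespace Pool.Agent.V5helper76.DU

open Pool.Agent.V5helper56.DU

variable {K L : Type} [Field K] [NumberField K] [Field L] [NumberField L] [Algebra K L]
  [IsGalois K L] {p : ℕ}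

theorem norm_pow' {P : Ideal (𝓞 L)} (hP : P.IsMaximal) (hpP : (p : 𝓞 L) ∉ P) {σ : Gal(L/K)}
    (hcard : Nat.card Gal(L/K) = p) (hσ : ∀ g : Gal(L/K), g ∈ Subgroup.zpowers σ)
    (hσP : ∀ x : 𝓞 L, σ • x - x ∈ P) (y : 𝓞 L) (v : 𝓞 K)
    (hv : algebraMap (𝓞 K) (𝓞 L) v = ∏ i ∈ Finset.range p, (σ ^ i) • y) :
    ∃ z : 𝓞 K, algebraMap (𝓞 K) (𝓞 L) (v - z ^ p) ∈ P := by
  classical
  haveI : IsGaloisGroup Gal(L/K) (𝓞 K) (𝓞 L) := isGalGrp
  haveI : Algebra.IsIntegral (𝓞 K) (𝓞 L) := Algebra.IsIntegral.tower_top (R := ℤ)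
  have hord : orderOf σ = p := by rw [orderOf_eq_card_of_forall_mem_zpowers hσ, hcard]
  -- the trace
  set s : 𝓞 L := ∑ i ∈ Finset.range p, (σ ^ i) • y with hs
  have hsσ : σ • s = s := by
    rw [hs, Finset.smul_sum]
    have h1 : ∀ i, σ • ((σ ^ i) • y) = (σ ^ (i + 1)) • y := by
      intro i; rw [smul_smul, ← pow_succ']
    simp only [h1]
    rw [← add_right_cancel_iff (a := (σ ^ 0) • y), ← Finset.sum_range_succ' (fun i => (σ ^ i) • y),
      Finset.sum_range_succ]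
    congr 1
    rw [← hord, pow_orderOf_eq_one, pow_zero]
  have hsinv : ∀ g : Gal(L/K), g • s = s := by
    intro g
    obtain ⟨n, rfl⟩ := Subgroup.mem_zpowers_iff.1 (hσ g)
    have h4 : σ ∈ MulAction.stabilizer Gal(L/K) s := hsσ
    exact Subgroup.zpow_mem _ h4 n
  obtain ⟨t, ht⟩ := Algebra.IsInvariant.isInvariant (A := 𝓞 K) (G := Gal(L/K)) s hsinv
  have hsy : s - (p : 𝓞 L) * y ∈ P := by
    have h1 : s - (p : 𝓞 L) * y = ∑ i ∈ Finset.range p, ((σ ^ i) • y - y) := by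
      rw [Finset.sum_sub_distrib, ← hs]; simp
    rw [h1]
    exact P.sum_mem fun i _ => iter_cong hσP i _
  -- an inverse of `p`
  haveI hPu : (P.under (𝓞 K)).IsMaximal := Ideal.IsMaximal.under (𝓞 K) P
  obtain ⟨a, b, hb, hab⟩ := hPu.exists_inv (x := (p : 𝓞 K)) (by
    rw [Ideal.mem_comap, map_natCast]; exact hpP)
  refine ⟨a * t, ?_⟩
  -- `a t` is congruent to `y`
  have hz : algebraMap (𝓞 K) (𝓞 L) (a * t) - y ∈ P := by
    have hb' : algebraMap (𝓞 K) (𝓞 L) b ∈ P := hb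
    have h1 : algebraMap (𝓞 K) (𝓞 L) (a * t) - y =
        algebraMap (𝓞 K) (𝓞 L) a * (s - (p : 𝓞 L) * y) - algebraMap (𝓞 K) (𝓞 L) b * y := by
      have h2 : algebraMap (𝓞 K) (𝓞 L) a * (p : 𝓞 L) + algebraMap (𝓞 K) (𝓞 L) b = 1 := by
        rw [← map_one (algebraMap (𝓞 K) (𝓞 L)), ← hab, map_add, map_mul, map_natCast]
      rw [map_mul, ht]
      linear_combination y * h2
    rw [h1]
    exact P.sub_mem (P.mul_mem_left _ hsy) (P.mul_mem_right _ hb')
  rw [← Ideal.Quotient.eq_zero_iff_mem, map_sub, map_pow, map_sub, map_pow, hv, map_prod]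
  have h3 : ∀ i ∈ Finset.range p, Ideal.Quotient.mk P ((σ ^ i) • y) = Ideal.Quotient.mk P y :=
    fun i _ => Ideal.Quotient.eq.2 (iter_cong hσP i _)
  rw [Finset.prod_congr rfl h3, Finset.prod_const, Finset.card_range, Ideal.Quotient.eq.2 hz, sub_self]

theorem t_NRM : S_NRM := by
  intro K L _ _ _ _ _ _ p _ hcard σ hσ P hP hpP hσP y v hyv
  obtain ⟨n, hn, -⟩ := y.2
  set x : 𝓞 L := ⟨(p : L) ^ n * (((y : Lˣ)) : L), hn⟩ with hx
  have hsm : ∀ i : ℕ, (((σ ^ i) • x : 𝓞 L) : L) = (σ ^ i) ((x : 𝓞 L) : L) := fun i => rfl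
  have hprod : ((∏ i ∈ Finset.range p, (σ ^ i) • x : 𝓞 L) : L) =
      (p : L) ^ (p * n) * algebraMap K L ((v : Kˣ) : K) := by
    rw [← hyv, nP_coe]
    have e1 : ((∏ i ∈ Finset.range p, (σ ^ i) • x : 𝓞 L) : L) =
        ∏ i ∈ Finset.range p, (((σ ^ i) • x : 𝓞 L) : L) :=
      map_prod (algebraMap (𝓞 L) L) _ _
    rw [e1]
    have e2 : ∀ i ∈ Finset.range p, (((σ ^ i) • x : 𝓞 L) : L) =
        (p : L) ^ n * (σ ^ i) ((y : Lˣ) : L) := by
      intro i _
      rw [hsm]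
      show (σ ^ i) ((p : L) ^ n * (((y : Lˣ)) : L)) = _
      rw [map_mul, map_pow, map_natCast]
    rw [Finset.prod_congr rfl e2, Finset.prod_mul_distrib, Finset.prod_const, Finset.card_range,
      ← pow_mul, mul_comm n p]
  have hw : IsIntegral ℤ ((p : K) ^ (p * n) * ((v : Kˣ) : K)) := by
    have h1 : algebraMap K L ((p : K) ^ (p * n) * ((v : Kˣ) : K)) =
        ((∏ i ∈ Finset.range p, (σ ^ i) • x : 𝓞 L) : L) := by
      rw [hprod, map_mul, map_pow, map_natCast]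
    have h2 : IsIntegral ℤ (algebraMap K L ((p : K) ^ (p * n) * ((v : Kˣ) : K))) := by
      rw [h1]
      exact NumberField.RingOfIntegers.isIntegral_coe _
    exact (isIntegral_algebraMap_iff (algebraMap K L).injective).1 h2
  set w : 𝓞 K := ⟨(p : K) ^ (p * n) * ((v : Kˣ) : K), hw⟩ with hwdef
  have hv : algebraMap (𝓞 K) (𝓞 L) w = ∏ i ∈ Finset.range p, (σ ^ i) • x := by
    apply NumberField.RingOfIntegers.ext
    rw [hprod]
    show algebraMap K L ((p : K) ^ (p * n) * ((v : Kˣ) : K)) = _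
    rw [map_mul, map_pow, map_natCast]
  obtain ⟨z, hz⟩ := norm_pow' hP hpP hcard hσ hσP x w hv
  exact ⟨n, w, z, rfl, hz⟩

end Pool.Agent.V5helper76.DU
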